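import Mathlib
import Pool.Agent.H410R2.EDIface

set_option autoImplicit false

open Finset

namespace Pool.Agent.H658R2.ED

open Pool.Agent.H410R2.ED

/-- Chinese remainder theorem with shifts. -/
theorem exists_crt_add {ι : Type*} [Fintype ι] (m c r : ι → ℕ) (hm : ∀ i, 0 < m i)
    (hco : ∀ i j, i ≠ j → Nat.Coprime (m i) (m j)) :
    ∃ X, ∀ i, X + c i ≡ r i [MOD m i] := by
  classical
  obtain ⟨X, hX⟩ := Nat.chineseRemainderOfFinset (fun i => r i + (m i - 1) * c i) m
    (Finset.univ : Finset ι) (fun i _ => (hm i).ne') (fun i _ j _ hij => hco i j hij)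
  refine ⟨X, fun i => ?_⟩
  have h1 : X + c i ≡ r i + (m i - 1) * c i + c i [MOD m i] :=
    Nat.ModEq.add_right _ (hX i (Finset.mem_univ i))
  have h2 : r i + (m i - 1) * c i + c i = r i + m i * c i := by
    have := hm i
    obtain ⟨t, ht⟩ : ∃ t, m i = t + 1 := ⟨m i - 1, by omega⟩
    rw [ht]; simp; ring
  rw [h2] at h1
  refine h1.trans ?_
  have : r i + m i * c i ≡ r i + 0 [MOD m i] :=
    Nat.ModEq.add_left _ ((Nat.modEq_zero_iff_dvd).2 (dvd_mul_right _ _))
  simp at this ⊢

/-- divisor count of a prime power times a coprime number -/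
theorem dd_pow_mul {q n v : ℕ} (hq : q.Prime) (hn : Nat.Coprime q n) :
    dd (q ^ v * n) = (v + 1) * dd n := by
  unfold dd
  rw [Nat.Coprime.card_divisors_mul (Nat.Coprime.pow_left v hn), Nat.divisors_prime_pow hq]
  simp

theorem dd_mul_coprime {m n : ℕ} (h : Nat.Coprime m n) : dd (m * n) = dd m * dd n := by
  unfold dd
  exact Nat.Coprime.card_divisors_mul h

/-- the local lemma -/
theorem local_dd {q h'' Y' ρ : ℕ} (hq : q.Prime) (h1 : Nat.Coprime q h'')
    (h2 : Nat.Coprime q Y') (h3 : Nat.Coprime h'' Y') :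
    dd (q ^ (4 ^ ρ - 1) * h'') * dd (q ^ (2 ^ ρ) * Y') =
      2 ^ ρ * dd (q ^ (4 ^ ρ - 1) * h'' * (q ^ (2 ^ ρ) * Y')) := by
  have e1 : q ^ (4 ^ ρ - 1) * h'' * (q ^ (2 ^ ρ) * Y') = q ^ (4 ^ ρ - 1 + 2 ^ ρ) * (h'' * Y') := by
    rw [pow_add]; ring
  rw [e1, dd_pow_mul hq h1, dd_pow_mul hq h2, dd_pow_mul hq (Nat.Coprime.mul_right h1 h2),
    dd_mul_coprime h3]
  have h4 : 1 ≤ 4 ^ ρ := Nat.one_le_pow _ _ (by norm_num)
  have h5 : 4 ^ ρ - 1 + 1 = 4 ^ ρ := by omega
  have h6 : 4 ^ ρ - 1 + 2 ^ ρ + 1 = 4 ^ ρ + 2 ^ ρ := by omega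
  rw [h5, h6]
  have h7 : 4 ^ ρ = 2 ^ ρ * 2 ^ ρ := by rw [← mul_pow]; norm_num
  rw [h7]
  ring

/-- exact valuation from a congruence -/
theorem exact_of_modEq {q n v : ℕ} (hq : q.Prime) (h : n ≡ q ^ v [MOD q ^ (v + 1)]) :
    ∃ m, n = q ^ v * m ∧ Nat.Coprime q m := by
  have hd : q ^ v ∣ n := by
    have h1 : n ≡ q ^ v [MOD q ^ v] := h.of_dvd (pow_dvd_pow q (Nat.le_succ v))
    exact (Nat.modEq_zero_iff_dvd).1 (h1.trans ((Nat.modEq_zero_iff_dvd).2 dvd_rfl))
  obtain ⟨m, hm⟩ := hd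
  refine ⟨m, hm, ?_⟩
  rw [Nat.Prime.coprime_iff_not_dvd hq]
  intro hqm
  have h2 : q ^ (v + 1) ∣ n := by
    rw [hm, pow_succ]; exact mul_dvd_mul_left _ hqm
  have h3 : q ^ (v + 1) ∣ q ^ v :=
    (Nat.modEq_zero_iff_dvd).1 (h.symm.trans ((Nat.modEq_zero_iff_dvd).2 h2))
  have h4 := (Nat.pow_dvd_pow_iff_le_right hq.one_lt).1 h3
  omega


/-- base-b code of a line -/
def E {k b : ℕ} (e : Ln k b) : ℕ := ∑ l : Fin (k + 1), (e l : ℕ) * b ^ (l : ℕ)

theorem E_lt {k b : ℕ} (e : Ln k b) : E e < b ^ (k + 1) := by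
  have h := (finFunctionFinEquiv e).2
  have h2 : ((finFunctionFinEquiv e : Fin (b ^ (k + 1))) : ℕ) = E e := by
    rw [finFunctionFinEquiv_apply]; rfl
  rw [← h2]; exact h

theorem E_inj {k b : ℕ} : Function.Injective (E : Ln k b → ℕ) := by
  intro e e' h
  apply finFunctionFinEquiv.injective
  apply Fin.ext
  rw [finFunctionFinEquiv_apply, finFunctionFinEquiv_apply]
  exact h

/-- the shift of a line -/
def Sh {k b : ℕ} (e : Ln k b) : ℕ :=
  ∑ l : Fin (k + 1), (l : ℕ) * (b - (e l : ℕ)) * b ^ (l : ℕ)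

/-- the position of a point -/
def Po {k b : ℕ} (l : Fin (k + 1)) (x : Fin k → Fin b) : ℕ :=
  (l : ℕ) * b * b ^ (l : ℕ) + ∑ i : Fin k, ((l : ℕ) * (x i : ℕ) +
    ((l.succAbove i : Fin (k + 1)) : ℕ) * (b - (x i : ℕ))) * b ^ ((l.succAbove i : Fin (k + 1)) : ℕ)

theorem key_indep {k b : ℕ} (l : Fin (k + 1)) (e : Ln k b) :
    (l : ℕ) * E e + Sh e = Po l (fun i => e (l.succAbove i)) := by
  unfold E Sh Po
  rw [Finset.mul_sum, ← Finset.sum_add_distrib, Fin.sum_univ_succAbove _ l]
  congr 1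
  · have : (e l : ℕ) ≤ b := (e l).2.le
    obtain ⟨t, ht⟩ := Nat.exists_eq_add_of_le this
    have h2 : b - (e l : ℕ) = t := by omega
    rw [h2]
    have h3 : (l : ℕ) * ((e l : ℕ) * b ^ (l : ℕ)) + (l : ℕ) * t * b ^ (l : ℕ) =
        (l : ℕ) * ((e l : ℕ) + t) * b ^ (l : ℕ) := by ring
    rw [h3, ← ht]
  · apply Finset.sum_congr rfl
    intro i _
    ring

theorem design : Design := by
  intro k b B ρ hρ
  classical
  obtain ⟨B', hB'⟩ : ∃ B', B' = B + b ^ (k + 1) + k + 1 := ⟨_, rfl⟩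
  obtain ⟨D, hD⟩ : ∃ D, D = B'.factorial := ⟨_, rfl⟩
  have hDpos : 0 < D := by rw [hD]; exact Nat.factorial_pos _
  have hDp : ∀ p, p.Prime → (p ∣ D ↔ p ≤ B') := by
    intro p hp; rw [hD]; exact hp.dvd_factorial
  -- the primes
  obtain ⟨φ, hφ⟩ : ∃ φ : Ln k b × Fin (k + 1) → ℕ, Function.Injective φ :=
    ⟨fun x => (Fintype.equivFin _ x : ℕ), fun x y h =>
      (Fintype.equivFin _).injective (Fin.ext h)⟩
  obtain ⟨q, hq⟩ : ∃ q : Ln k b → Fin (k + 1) → ℕ,
      ∀ e l, q e l = Nat.nth Nat.Prime (B' + φ (e, l)) := ⟨_, fun _ _ => rfl⟩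
  have hqp : ∀ e l, (q e l).Prime := by
    intro e l; rw [hq]; exact Nat.prime_nth_prime _
  have hqB : ∀ e l, B' < q e l := by
    intro e l; rw [hq]
    have := Nat.add_two_le_nth_prime (B' + φ (e, l))
    omega
  have hqinj : ∀ e l e' l', q e l = q e' l' → (e, l) = (e', l') := by
    intro e l e' l' h
    rw [hq, hq] at h
    have h2 := (Nat.nth_strictMono Nat.infinite_setOfPred_prime).injective h
    exact hφ (by omega)
  -- the base point
  obtain ⟨d0, hd0⟩ := exists_crt_add (ι := Option (Ln k b × Fin (k + 1)))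
    (fun o => match o with
      | none => D
      | some x => q x.1 x.2 ^ (4 ^ ρ x.1 x.2 - 1 + 1))
    (fun o => match o with
      | none => 0
      | some x => D * E x.1)
    (fun o => match o with
      | none => 1
      | some x => q x.1 x.2 ^ (4 ^ ρ x.1 x.2 - 1))
    (by
      intro o
      match o with
      | none => exact hDpos
      | some x => exact Nat.pow_pos (hqp _ _).pos)
    (by
      have hDq : ∀ e l n, Nat.Coprime D (q e l ^ n) := by
        intro e l n
        apply Nat.Coprime.pow_right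
        rw [Nat.coprime_comm, Nat.Prime.coprime_iff_not_dvd (hqp e l), hDp _ (hqp e l)]
        have := hqB e l; omega
      intro o o' hne
      match o, o', hne with
      | none, none, h => exact absurd rfl h
      | none, some x, _ => exact hDq _ _ _
      | some x, none, _ => exact (hDq _ _ _).symm
      | some x, some y, h =>
        apply Nat.Coprime.pow
        rw [Nat.coprime_primes (hqp _ _) (hqp _ _)]
        intro hh
        apply h
        have := hqinj _ _ _ _ hh
        rw [show x = (x.1, x.2) from rfl, show y = (y.1, y.2) from rfl, this])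
  have hd0D : d0 ≡ 1 [MOD D] := by simpa using hd0 none
  have hd0q : ∀ e l, d0 + D * E e ≡ q e l ^ (4 ^ ρ e l - 1) [MOD q e l ^ (4 ^ ρ e l - 1 + 1)] :=
    fun e l => hd0 (some (e, l))
  obtain ⟨h, hh⟩ : ∃ h : Ln k b → ℕ, ∀ e, h e = d0 + D * E e := ⟨_, fun _ => rfl⟩
  have hhD : ∀ e, h e ≡ 1 [MOD D] := by
    intro e; rw [hh]
    have : d0 + D * E e ≡ 1 + 0 [MOD D] :=
      Nat.ModEq.add hd0D ((Nat.modEq_zero_iff_dvd).2 (dvd_mul_right _ _))
    simpa using this
  have hhq : ∀ e l, ∃ m, h e = q e l ^ (4 ^ ρ e l - 1) * m ∧ Nat.Coprime (q e l) m := by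
    intro e l
    apply exact_of_modEq (hqp e l)
    rw [hh]; exact hd0q e l
  have hv1 : ∀ e l, 1 ≤ 4 ^ ρ e l - 1 := by
    intro e l
    have := hρ e l
    have h4 : 4 ^ 1 ≤ 4 ^ ρ e l := Nat.pow_le_pow_right (by norm_num) this
    omega
  have hqh : ∀ e l, q e l ∣ h e := by
    intro e l
    obtain ⟨m, hm, _⟩ := hhq e l
    rw [hm]
    exact dvd_mul_of_dvd_left (dvd_pow_self _ (by have := hv1 e l; omega)) _
  have hhpos : ∀ e, 0 < h e := by
    intro e
    obtain ⟨m, hm, hc⟩ := hhq e 0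
    rcases Nat.eq_zero_or_pos m with h0 | h0
    · rw [h0] at hc
      have := (Nat.coprime_zero_right _).1 hc
      have h1 := (hqp e 0).one_lt
      omega
    · rw [hm]; exact Nat.mul_pos (Nat.pow_pos (hqp _ _).pos) h0
  -- primes dividing h e are large
  have hbig : ∀ e p, p.Prime → p ∣ h e → B' < p := by
    intro e p hp hpe
    by_contra hle
    have hle : p ≤ B' := by omega
    have h1 : p ∣ D := (hDp p hp).2 hle
    have h2 : h e ≡ 1 [MOD p] := (hhD e).of_dvd h1
    have h3 : h e ≡ 0 [MOD p] := (Nat.modEq_zero_iff_dvd).2 hpe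
    have h4 : p ∣ 1 := (Nat.modEq_zero_iff_dvd).1 (h2.symm.trans h3)
    exact hp.one_lt.ne' (Nat.dvd_one.1 h4)
  -- coprimality
  have hcop : ∀ e e', e ≠ e' → Nat.Coprime (h e) (h e') := by
    intro e e' hne
    apply Nat.Coprime.symm
    apply Nat.coprime_of_dvd
    intro p hp hpe' hpe
    have hpB := hbig e p hp hpe
    have hEne : E e ≠ E e' := fun hE => hne (E_inj hE)
    have key : ∀ x y : ℕ, x < y → y < b ^ (k + 1) → p ∣ d0 + D * x → p ∣ d0 + D * y → False := by
      intro x y hxy hy h1 h2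
      have h3 : p ∣ D * (y - x) := by
        have := Nat.dvd_sub h2 h1
        have e2 : d0 + D * y - (d0 + D * x) = D * (y - x) := by
          rw [Nat.mul_sub]; omega
        rwa [e2] at this
      rcases (hp.dvd_mul).1 h3 with h4 | h4
      · have := (hDp p hp).1 h4; omega
      · have := Nat.le_of_dvd (by omega) h4
        omega
    rw [hh] at hpe hpe'
    rcases lt_or_gt_of_ne hEne with hlt | hlt
    · exact key _ _ hlt (E_lt e') hpe hpe'
    · exact key _ _ hlt (E_lt e) hpe' hpe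
  -- the residues Y_e
  have hY : ∀ e, ∃ y, (∀ l : Fin (k + 1), y + l ≡ q e l ^ (2 ^ ρ e l) [MOD q e l ^ (2 ^ ρ e l + 1)]) ∧
      ∀ p, p.Prime → p ∣ h e → (∀ l, p ≠ q e l) → y ≡ 1 [MOD p] := by
    intro e
    obtain ⟨P, hP⟩ : ∃ P, P = ∏ p ∈ (h e).primeFactors.filter (fun p => ∀ l, p ≠ q e l), p :=
      ⟨_, rfl⟩
    have hPq : ∀ l, Nat.Coprime P (q e l) := by
      intro l
      rw [hP]
      apply Nat.Coprime.prod_left
      intro p hp
      rw [Finset.mem_filter] at hp
      exact (Nat.coprime_primes (Nat.prime_of_mem_primeFactors hp.1) (hqp e l)).2 (hp.2 l)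
    have hPpos : 0 < P := by
      rw [hP]
      apply Finset.prod_pos
      intro p hp
      rw [Finset.mem_filter] at hp
      exact (Nat.prime_of_mem_primeFactors hp.1).pos
    obtain ⟨y, hy⟩ := exists_crt_add (ι := Option (Fin (k + 1)))
      (fun o => match o with
        | none => P
        | some l => q e l ^ (2 ^ ρ e l + 1))
      (fun o => match o with
        | none => 0
        | some l => (l : ℕ))
      (fun o => match o with
        | none => 1
        | some l => q e l ^ (2 ^ ρ e l))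
      (by
        intro o
        match o with
        | none => exact hPpos
        | some x => exact Nat.pow_pos (hqp _ _).pos)
      (by
        intro o o' hne
        match o, o', hne with
        | none, none, h => exact absurd rfl h
        | none, some x, _ => exact Nat.Coprime.pow_right _ (hPq x)
        | some x, none, _ => exact (Nat.Coprime.pow_right _ (hPq x)).symm
        | some x, some y, h =>
          apply Nat.Coprime.pow
          rw [Nat.coprime_primes (hqp _ _) (hqp _ _)]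
          intro hh
          apply h
          have := hqinj _ _ _ _ hh
          rw [(Prod.mk.inj this).2])
    refine ⟨y, fun l => hy (some l), ?_⟩
    intro p hp hpe hpl
    have h1 : p ∣ P := by
      rw [hP]
      apply Finset.dvd_prod_of_mem
      rw [Finset.mem_filter]
      exact ⟨Nat.mem_primeFactors.2 ⟨hp, hpe, (hhpos e).ne'⟩, hpl⟩
    have h2 : y + 0 ≡ 1 [MOD P] := hy none
    exact (by simpa using h2 : y ≡ 1 [MOD P]).of_dvd h1
  choose Ye hYe1 hYe2 using hY
  obtain ⟨J, hJ⟩ : ∃ J : ℕ, ∀ e l, 2 ^ ρ e l + 1 ≤ J := by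
    refine ⟨∑ e : Ln k b, ∑ l : Fin (k + 1), (2 ^ ρ e l + 1), ?_⟩
    intro e l
    calc 2 ^ ρ e l + 1 ≤ ∑ l : Fin (k + 1), (2 ^ ρ e l + 1) :=
          Finset.single_le_sum (f := fun l => 2 ^ ρ e l + 1) (fun _ _ => Nat.zero_le _)
            (Finset.mem_univ l)
      _ ≤ _ := Finset.single_le_sum (f := fun e => ∑ l : Fin (k + 1), (2 ^ ρ e l + 1))
            (fun _ _ => Nat.zero_le _) (Finset.mem_univ e)
  obtain ⟨σ, hσ⟩ : ∃ σ : Ln k b → ℕ, ∀ e, σ e = D * Sh e := ⟨_, fun _ => rfl⟩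
  obtain ⟨X, hX⟩ := exists_crt_add (fun e : Ln k b => h e ^ (J + 1)) σ (fun e => h e * Ye e)
    (fun e => Nat.pow_pos (hhpos e)) (fun e e' hne => Nat.Coprime.pow _ _ (hcop e e' hne))
  refine ⟨D * ∏ e, h e ^ (J + 1), X, h, σ, fun pt => pt.1 * d0 + D * Po pt.1 pt.2, ?_, ?_, hhpos,
    ?_, ?_, ?_⟩
  · exact Nat.mul_pos hDpos (Finset.prod_pos (fun e _ => Nat.pow_pos (hhpos e)))
  · intro p hp hpB
    exact dvd_mul_of_dvd_left ((hDp p hp).2 (by omega)) _
  · intro e
    apply dvd_mul_of_dvd_right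
    exact (dvd_pow_self _ (by omega)).trans (Finset.dvd_prod_of_mem (fun e => h e ^ (J + 1))
      (Finset.mem_univ e))
  · intro e l
    show (l : ℕ) * d0 + D * Po l (fun i => e (l.succAbove i)) = (l : ℕ) * h e + σ e
    rw [← key_indep, hh, hσ]
    ring
  · intro Y hYX e
    have hs : ∀ l : Fin (k + 1), (l : ℕ) * d0 + D * Po l (fun i => e (l.succAbove i)) =
        (l : ℕ) * h e + σ e := by
      intro l
      rw [← key_indep, hh, hσ]
      ring
    have hYe : Y + σ e ≡ h e * Ye e [MOD h e * h e ^ J] := by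
      have h1 : Y ≡ X [MOD h e ^ (J + 1)] := hYX.of_dvd
        (dvd_mul_of_dvd_right (Finset.dvd_prod_of_mem (fun e => h e ^ (J + 1))
          (Finset.mem_univ e)) _)
      have h2 := (h1.add_right (σ e)).trans (hX e)
      rwa [pow_succ, mul_comm] at h2
    have hdvd : h e ∣ Y + σ e := by
      have h1 : Y + σ e ≡ h e * Ye e [MOD h e] := hYe.of_dvd (dvd_mul_right _ _)
      exact (Nat.modEq_zero_iff_dvd).1 (h1.trans ((Nat.modEq_zero_iff_dvd).2 (dvd_mul_right _ _)))
    refine ⟨hdvd, ?_⟩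
    obtain ⟨y, hy⟩ := hdvd
    have hdiv : (Y + σ e) / h e = y := by
      rw [hy]; exact Nat.mul_div_cancel_left _ (hhpos e)
    have hyY : y ≡ Ye e [MOD h e ^ J] := by
      rw [hy] at hYe
      exact Nat.ModEq.mul_left_cancel' (hhpos e).ne' hYe
    intro l
    rw [hdiv]
    have hsl : Y + ((l : ℕ) * d0 + D * Po l (fun i => e (l.succAbove i))) = h e * (y + l) := by
      rw [hs l, mul_add, ← hy]; ring
    show dd (h e) * dd (y + l) = 2 ^ ρ e l *
      dd (Y + ((l : ℕ) * d0 + D * Po l (fun i => e (l.succAbove i))))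
    rw [hsl]
    -- valuations at q e l
    have hyq : ∀ l' : Fin (k + 1), y + l' ≡ q e l' ^ (2 ^ ρ e l') [MOD q e l' ^ (2 ^ ρ e l' + 1)] := by
      intro l'
      have h1 : q e l' ^ (2 ^ ρ e l' + 1) ∣ h e ^ J :=
        (pow_dvd_pow _ (hJ e l')).trans (pow_dvd_pow_of_dvd (hqh e l') J)
      exact ((hyY.of_dvd h1).add_right _).trans (hYe1 e l')
    obtain ⟨Y', hY', hcY'⟩ := exact_of_modEq (hqp e l) (hyq l)
    obtain ⟨h'', hh'', hch''⟩ := hhq e l
    have hcop2 : Nat.Coprime h'' Y' := by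
      apply Nat.Coprime.symm
      apply Nat.coprime_of_dvd
      intro p hp hpY' hph''
      have hpq : p ≠ q e l := by
        intro hpq
        rw [hpq] at hpY'
        exact (Nat.Prime.coprime_iff_not_dvd (hqp e l)).1 hcY' hpY'
      have hph : p ∣ h e := by rw [hh'']; exact dvd_mul_of_dvd_right hph'' _
      have hpyl : p ∣ y + l := by rw [hY']; exact dvd_mul_of_dvd_right hpY' _
      have hpB := hbig e p hp hph
      have hl : (l : ℕ) < k + 1 := l.2
      by_cases hc : ∀ l', p ≠ q e l'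
      · have h1 : y ≡ 1 [MOD p] := by
          have h2 : p ∣ h e ^ J := hph.trans (dvd_pow_self _
            (lt_of_lt_of_le (Nat.succ_pos _) (hJ e l)).ne')
          exact (hyY.of_dvd h2).trans (hYe2 e p hp hph hc)
        have h3 : y + l ≡ 1 + l [MOD p] := h1.add_right _
        have h4 : p ∣ 1 + l :=
          (Nat.modEq_zero_iff_dvd).1 (h3.symm.trans ((Nat.modEq_zero_iff_dvd).2 hpyl))
        have := Nat.le_of_dvd (by omega) h4
        omega
      · push Not at hc
        obtain ⟨l', hl'⟩ := hc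
        have hll' : l ≠ l' := by rintro rfl; exact hpq hl'
        have h1 : p ∣ y + l' := by
          rw [hl']
          have h2 : y + l' ≡ q e l' ^ (2 ^ ρ e l') [MOD q e l'] :=
            (hyq l').of_dvd (dvd_pow_self _ (Nat.succ_ne_zero _))
          exact (Nat.modEq_zero_iff_dvd).1 (h2.trans ((Nat.modEq_zero_iff_dvd).2
            (dvd_pow_self _ (by positivity))))
        have hl2 : (l' : ℕ) < k + 1 := l'.2
        have hne : (l : ℕ) ≠ l' := fun hh => hll' (Fin.ext hh)
        rcases lt_or_gt_of_ne hne with hlt | hlt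
        · have h2 := Nat.dvd_sub h1 hpyl
          have h3 : y + (l' : ℕ) - (y + l) = l' - l := by omega
          rw [h3] at h2
          have := Nat.le_of_dvd (by omega) h2
          omega
        · have h2 := Nat.dvd_sub hpyl h1
          have h3 : y + (l : ℕ) - (y + l') = l - l' := by omega
          rw [h3] at h2
          have := Nat.le_of_dvd (by omega) h2
          omega
    rw [hY', hh'']
    exact local_dd (hqp e l) hch'' hcY' hcop2

end Pool.Agent.H658R2.ED
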