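import Mathlib
import Pool.Agent.H292R2.Leh.Defs

set_option autoImplicit false

open Polynomial

namespace Pool.Agent.H658R2.LehC

open Pool.Agent.H292R2.Leh

/-- product of the distances from one `k`-th root of unity to the others -/
theorem root_prod {k : ℕ} (hk : 0 < k) {ω : ℂ} (hω : IsPrimitiveRoot ω k) (a : Fin k) :
    ∏ b ∈ Finset.univ.erase a, ‖ω ^ (a : ℕ) - ω ^ (b : ℕ)‖ = k := by
  classical
  have hinj : ∀ b c : Fin k, ω ^ (b : ℕ) = ω ^ (c : ℕ) → b = c := fun b c h =>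
    Fin.ext (hω.pow_inj b.2 c.2 h)
  have hnod : Lagrange.nodal Finset.univ (fun b : Fin k => ω ^ (b : ℕ)) = X ^ k - 1 := by
    rw [X_pow_sub_one_eq_prod hk hω, Lagrange.nodal]
    have himg : nthRootsFinset k (1 : ℂ) = Finset.univ.image (fun b : Fin k => ω ^ (b : ℕ)) := by
      symm
      apply Finset.eq_of_subset_of_card_le
      · intro z hz
        obtain ⟨b, -, rfl⟩ := Finset.mem_image.1 hz
        rw [mem_nthRootsFinset hk]
        rw [← pow_mul, mul_comm, pow_mul, hω.pow_eq_one, one_pow]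
      · rw [hω.card_nthRootsFinset, Finset.card_image_of_injective]
        · simp
        · intro b c h
          exact hinj b c h
    rw [himg, Finset.prod_image]
    intro b _ c _ h
    exact hinj b c h
  have h1 := Lagrange.eval_nodal_derivative_eval_node_eq
    (v := fun b : Fin k => ω ^ (b : ℕ)) (Finset.mem_univ a)
  rw [hnod, Lagrange.eval_nodal] at h1
  have h2 : ‖∏ b ∈ Finset.univ.erase a, (ω ^ (a : ℕ) - ω ^ (b : ℕ))‖ = k := by
    rw [← h1]
    simp [derivative_X_pow, hω.norm'_eq_one hk.ne']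
  rw [← h2, norm_prod]

/-- the cross product is a `k²`-th power -/
theorem cross_pow {ι M : Type*} [Fintype ι] [DecidableEq ι] [CommMonoid M] (k : ℕ)
    (g : ι → ι → M) :
    ∏ p : ι × Fin k, ∏ q : ι × Fin k, (if p.1 ≠ q.1 then g p.1 q.1 else 1) =
      (∏ i, ∏ j ∈ Finset.univ.erase i, g i j) ^ (k ^ 2) := by
  have h1 : ∀ i : ι, ∏ j, (if i ≠ j then g i j else 1) = ∏ j ∈ Finset.univ.erase i, g i j := by
    intro i
    rw [← Finset.prod_filter]
    apply Finset.prod_congr _ (fun _ _ => rfl)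
    ext j
    simp [eq_comm]
  rw [Fintype.prod_prod_type]
  simp only [Fintype.prod_prod_type, Finset.prod_const, Finset.card_univ, Fintype.card_fin,
    Finset.prod_pow, h1]
  rw [← pow_mul, sq]

section Cluster

variable {ι κ : Type*} [Fintype ι] [DecidableEq ι] [Fintype κ] [DecidableEq κ]

/-- the points of the clusters -/
noncomputable def P (x : ι → ℂ) (y : κ → ℂ) (k : ℕ) (ω : ℂ) (ε : ℝ) (w : ι → ℂ) :
    (ι × Fin k) ⊕ κ → ℂ :=
  Sum.elim (fun p => x p.1 + (ε : ℂ) * w p.1 * ω ^ (p.2 : ℕ)) y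

/-- the product of the differences of points in different clusters -/
noncomputable def F (x : ι → ℂ) (y : κ → ℂ) (k : ℕ) (ω : ℂ) (ε : ℝ) (w : ι → ℂ) : ℂ :=
  (∏ p : ι × Fin k, ∏ q : ι × Fin k, (if p.1 ≠ q.1 then
      ((x p.1 + (ε : ℂ) * w p.1 * ω ^ (p.2 : ℕ)) - (x q.1 + (ε : ℂ) * w q.1 * ω ^ (q.2 : ℕ)))
      else 1)) *
    (∏ p : ι × Fin k, ∏ j, ((x p.1 + (ε : ℂ) * w p.1 * ω ^ (p.2 : ℕ)) - y j)) ^ 2 *
    ∏ j, ∏ j' ∈ Finset.univ.erase j, (y j - y j')

theorem F_diff (x : ι → ℂ) (y : κ → ℂ) (k : ℕ) (ω : ℂ) (ε : ℝ) (w : ι → ℂ) (i : ι) :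
    Differentiable ℂ (fun z : ℂ => F x y k ω ε (Function.update w i z)) := by
  have hu : ∀ l : ι, Differentiable ℂ (fun z : ℂ => Function.update w i z l) := by
    intro l
    by_cases h : l = i
    · subst h
      simp only [Function.update_self]
      exact differentiable_id
    · simp only [Function.update_of_ne h]
      exact differentiable_const _
  unfold F
  apply Differentiable.mul
  · apply Differentiable.mul
    · apply Differentiable.fun_finsetProd
      intro p _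
      apply Differentiable.fun_finsetProd
      intro q _
      by_cases h : p.1 ≠ q.1
      · simp only [if_pos h]
        exact (((hu _).const_mul _).mul_const _ |>.const_add _).sub
          (((hu _).const_mul _).mul_const _ |>.const_add _)
      · simp only [if_neg h]
        exact differentiable_const _
    · apply Differentiable.pow
      apply Differentiable.fun_finsetProd
      intro p _
      apply Differentiable.fun_finsetProd
      intro q _
      exact (((hu _).const_mul _).mul_const _ |>.const_add _).sub_const _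
  · exact differentiable_const _

theorem F_zero (x : ι → ℂ) (y : κ → ℂ) (k : ℕ) (ω : ℂ) (ε : ℝ) :
    ‖F x y k ω ε 0‖ = dprod x ^ (k ^ 2) * (∏ i, ∏ j, ‖x i - y j‖) ^ (2 * k) * dprod y := by
  have h1 : ∏ p : ι × Fin k, ∏ q : ι × Fin k, (if p.1 ≠ q.1 then (x p.1 - x q.1) else 1) =
      (∏ i, ∏ j ∈ Finset.univ.erase i, (x i - x j)) ^ (k ^ 2) :=
    cross_pow k (fun i j => x i - x j)
  have h2 : ∏ p : ι × Fin k, ∏ j, (x p.1 - y j) = (∏ i, ∏ j, (x i - y j)) ^ k := by
    rw [Fintype.prod_prod_type]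
    simp only [Finset.prod_const, Finset.card_univ, Fintype.card_fin, Finset.prod_pow]
  unfold F
  simp only [Pi.zero_apply, mul_zero, zero_mul, add_zero]
  rw [h1, h2, norm_mul, norm_mul, norm_pow, norm_pow, norm_pow]
  simp only [norm_prod, dprod]
  rw [← pow_mul, mul_comm 2 k]

theorem dprod_P (x : ι → ℂ) (y : κ → ℂ) (k : ℕ) (ω : ℂ) (ε : ℝ) (w : ι → ℂ) :
    dprod (P x y k ω ε w) = ‖F x y k ω ε w‖ *
      ∏ p : ι × Fin k, ∏ b ∈ Finset.univ.erase p.2,
        ‖(ε : ℂ) * w p.1 * (ω ^ (p.2 : ℕ) - ω ^ (b : ℕ))‖ := by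
  have hsplit : ∀ s : (ι × Fin k) ⊕ κ, ∀ g : (ι × Fin k) ⊕ κ → ℝ,
      ∏ t ∈ Finset.univ.erase s, g t = ∏ t, (if t ≠ s then g t else 1) := by
    intro s g
    rw [← Finset.prod_filter]
    apply Finset.prod_congr _ (fun _ _ => rfl)
    ext t
    simp
  have hsplit' : ∀ s : κ, ∀ g : κ → ℝ,
      ∏ t ∈ Finset.univ.erase s, g t = ∏ t, (if t ≠ s then g t else 1) := by
    intro s g
    rw [← Finset.prod_filter]
    apply Finset.prod_congr _ (fun _ _ => rfl)
    ext t
    simp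
  have hsplit'' : ∀ s : Fin k, ∀ g : Fin k → ℝ,
      ∏ t ∈ Finset.univ.erase s, g t = ∏ t, (if t ≠ s then g t else 1) := by
    intro s g
    rw [← Finset.prod_filter]
    apply Finset.prod_congr _ (fun _ _ => rfl)
    ext t
    simp
  unfold dprod
  rw [Fintype.prod_sum_type]
  -- inl part
  have e1 : ∀ p : ι × Fin k, ∏ t ∈ Finset.univ.erase (Sum.inl p : (ι × Fin k) ⊕ κ),
      ‖P x y k ω ε w (Sum.inl p) - P x y k ω ε w t‖ =
      (∏ q : ι × Fin k, (if p.1 ≠ q.1 then
        ‖(x p.1 + (ε : ℂ) * w p.1 * ω ^ (p.2 : ℕ)) -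
          (x q.1 + (ε : ℂ) * w q.1 * ω ^ (q.2 : ℕ))‖ else 1)) *
      (∏ b ∈ Finset.univ.erase p.2, ‖(ε : ℂ) * w p.1 * (ω ^ (p.2 : ℕ) - ω ^ (b : ℕ))‖) *
      ∏ j, ‖(x p.1 + (ε : ℂ) * w p.1 * ω ^ (p.2 : ℕ)) - y j‖ := by
    intro p
    rw [hsplit, Fintype.prod_sum_type]
    congr 1
    · have e2 : ∀ q : ι × Fin k, (if (Sum.inl q : (ι × Fin k) ⊕ κ) ≠ Sum.inl p then
          ‖P x y k ω ε w (Sum.inl p) - P x y k ω ε w (Sum.inl q)‖ else 1) =
          (if p.1 ≠ q.1 then
            ‖(x p.1 + (ε : ℂ) * w p.1 * ω ^ (p.2 : ℕ)) -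
              (x q.1 + (ε : ℂ) * w q.1 * ω ^ (q.2 : ℕ))‖ else 1) *
          (if p.1 = q.1 then (if q.2 ≠ p.2 then
            ‖(ε : ℂ) * w p.1 * (ω ^ (p.2 : ℕ) - ω ^ (q.2 : ℕ))‖ else 1) else 1) := by
        rintro ⟨i', b⟩
        obtain ⟨i, a⟩ := p
        by_cases h : i = i'
        · subst h
          by_cases hb : b = a
          · subst hb
            simp
          · have hne : (Sum.inl (i, b) : (ι × Fin k) ⊕ κ) ≠ Sum.inl (i, a) := by
              intro h
              exact hb (by simpa using h)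
            simp only [ne_eq, not_true_eq_false, if_false, one_mul, if_true, hb,
              not_false_eq_true]
            rw [if_pos hne]
            simp only [P, Sum.elim_inl]
            congr 1
            ring
        · have hne : (Sum.inl (i', b) : (ι × Fin k) ⊕ κ) ≠ Sum.inl (i, a) := by
            intro h'
            apply h
            have := (Sum.inl.injEq _ _).mp h'
            exact (congrArg Prod.fst this).symm
          simp only [ne_eq, h, not_false_eq_true, if_true, if_false, mul_one]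
          rw [if_pos hne]
          simp only [P, Sum.elim_inl]
      rw [Finset.prod_congr rfl (fun q _ => e2 q), Finset.prod_mul_distrib]
      congr 1
      rw [Fintype.prod_prod_type]
      rw [Finset.prod_eq_single p.1]
      · simp only [if_true]
        rw [hsplit'']
      · intro i' _ hi'
        apply Finset.prod_eq_one
        intro b _
        rw [if_neg (fun h => hi' h.symm)]
      · intro h
        exact absurd (Finset.mem_univ _) h
  have e3 : ∀ j : κ, ∏ t ∈ Finset.univ.erase (Sum.inr j : (ι × Fin k) ⊕ κ),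
      ‖P x y k ω ε w (Sum.inr j) - P x y k ω ε w t‖ =
      (∏ p : ι × Fin k, ‖(x p.1 + (ε : ℂ) * w p.1 * ω ^ (p.2 : ℕ)) - y j‖) *
      ∏ j' ∈ Finset.univ.erase j, ‖y j - y j'‖ := by
    intro j
    rw [hsplit, Fintype.prod_sum_type]
    congr 1
    · apply Finset.prod_congr rfl
      intro p _
      simp only [ne_eq, reduceCtorEq, not_false_eq_true, if_true, P, Sum.elim_inl, Sum.elim_inr]
      exact norm_sub_rev _ _
    · rw [hsplit']
      apply Finset.prod_congr rfl
      intro j' _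
      simp [P]
  rw [Finset.prod_congr rfl (fun p _ => e1 p), Finset.prod_congr rfl (fun j _ => e3 j)]
  simp only [Finset.prod_mul_distrib]
  unfold F
  rw [norm_mul, norm_mul, norm_pow]
  simp only [norm_prod]
  have e4 : ∏ j, ∏ p : ι × Fin k, ‖(x p.1 + (ε : ℂ) * w p.1 * ω ^ (p.2 : ℕ)) - y j‖ =
      ∏ p : ι × Fin k, ∏ j, ‖(x p.1 + (ε : ℂ) * w p.1 * ω ^ (p.2 : ℕ)) - y j‖ :=
    Finset.prod_comm
  rw [e4]
  have e5 : ∀ p q : ι × Fin k, ‖(if p.1 ≠ q.1 then
      ((x p.1 + (ε : ℂ) * w p.1 * ω ^ (p.2 : ℕ)) - (x q.1 + (ε : ℂ) * w q.1 * ω ^ (q.2 : ℕ)))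
      else 1)‖ = (if p.1 ≠ q.1 then
        ‖(x p.1 + (ε : ℂ) * w p.1 * ω ^ (p.2 : ℕ)) -
          (x q.1 + (ε : ℂ) * w q.1 * ω ^ (q.2 : ℕ))‖ else 1) := by
    intro p q
    split_ifs <;> simp
  simp only [e5]
  ring

omit [DecidableEq ι] in
theorem inner_ge {k : ℕ} (hk : 0 < k) {ω : ℂ} (hω : IsPrimitiveRoot ω k) (ε : ℝ) (hε : 0 ≤ ε)
    (w : ι → ℂ) (hw : ∀ i, ‖w i‖ = 1) :
    ε ^ (Fintype.card ι * (k * (k - 1))) ≤ ∏ p : ι × Fin k, ∏ b ∈ Finset.univ.erase p.2,
        ‖(ε : ℂ) * w p.1 * (ω ^ (p.2 : ℕ) - ω ^ (b : ℕ))‖ := by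
  have h1 : ∀ p : ι × Fin k, ∏ b ∈ Finset.univ.erase p.2,
        ‖(ε : ℂ) * w p.1 * (ω ^ (p.2 : ℕ) - ω ^ (b : ℕ))‖ = ε ^ (k - 1) * k := by
    intro p
    simp only [norm_mul, hw, mul_one, Complex.norm_real, Real.norm_of_nonneg hε]
    rw [Finset.prod_mul_distrib, root_prod hk hω, Finset.prod_const,
      Finset.card_erase_of_mem (Finset.mem_univ _), Finset.card_univ, Fintype.card_fin]
  rw [Finset.prod_congr rfl (fun p _ => h1 p), Finset.prod_const, Finset.card_univ,
    Fintype.card_prod, Fintype.card_fin, mul_pow, ← pow_mul]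
  have h2 : (k - 1) * (Fintype.card ι * k) = Fintype.card ι * (k * (k - 1)) := by ring
  rw [h2]
  have h3 : (1 : ℝ) ≤ (k : ℝ) ^ (Fintype.card ι * k) := by
    apply one_le_pow₀
    exact_mod_cast hk
  have h4 : 0 ≤ ε ^ (Fintype.card ι * (k * (k - 1))) := by positivity
  nlinarith

/-- Task C with the statements of tasks A and B as hypotheses -/
theorem cluster_of
    (x : ι → ℂ) (y : κ → ℂ) (k : ℕ) (hk : 0 < k) (ε : ℝ) (hε : 0 ≤ ε)
    (vand_le : ∀ y : (ι × Fin k) ⊕ κ → ℂ,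
      dprod y ≤ (Fintype.card ((ι × Fin k) ⊕ κ) : ℝ) ^ (Fintype.card ((ι × Fin k) ⊕ κ)) *
        (∏ i, max 1 ‖y i‖) ^ (2 * (Fintype.card ((ι × Fin k) ⊕ κ) - 1)))
    (exists_torus : ∀ F : (ι → ℂ) → ℂ,
      (∀ (w : ι → ℂ) (i : ι), Differentiable ℂ (fun z : ℂ => F (Function.update w i z))) →
      ∃ w : ι → ℂ, (∀ i, ‖w i‖ = 1) ∧ ‖F 0‖ ≤ ‖F w‖) :
    dprod x ^ (k ^ 2) * (∏ i, ∏ j, ‖x i - y j‖) ^ (2 * k) * dprod y *
        ε ^ (Fintype.card ι * (k * (k - 1))) ≤
      ((k * Fintype.card ι + Fintype.card κ : ℕ) : ℝ) ^ (k * Fintype.card ι + Fintype.card κ) *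
      ((∏ i, (max 1 ‖x i‖ + ε)) ^ k * ∏ j, max 1 ‖y j‖) ^
        (2 * ((k * Fintype.card ι + Fintype.card κ) - 1)) := by
  classical
  obtain ⟨ω, hω⟩ : ∃ ω : ℂ, IsPrimitiveRoot ω k := ⟨_, Complex.isPrimitiveRoot_exp k hk.ne'⟩
  obtain ⟨w, hw, hF⟩ := exists_torus (F x y k ω ε) (F_diff x y k ω ε)
  rw [F_zero] at hF
  have hI := inner_ge hk hω ε hε w hw
  have hD := dprod_P x y k ω ε w
  have hV := vand_le (P x y k ω ε w)
  have hcard : Fintype.card ((ι × Fin k) ⊕ κ) = k * Fintype.card ι + Fintype.card κ := by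
    rw [Fintype.card_sum, Fintype.card_prod, Fintype.card_fin, mul_comm]
  rw [hcard] at hV
  have hω1 : ‖ω‖ = 1 := hω.norm'_eq_one hk.ne'
  have hmax : ∏ s, max 1 ‖P x y k ω ε w s‖ ≤
      (∏ i, (max 1 ‖x i‖ + ε)) ^ k * ∏ j, max 1 ‖y j‖ := by
    rw [Fintype.prod_sum_type]
    have h1 : ∏ p : ι × Fin k, max 1 ‖P x y k ω ε w (Sum.inl p)‖ ≤
        (∏ i, (max 1 ‖x i‖ + ε)) ^ k := by
      calc ∏ p : ι × Fin k, max 1 ‖P x y k ω ε w (Sum.inl p)‖
          ≤ ∏ p : ι × Fin k, (max 1 ‖x p.1‖ + ε) := by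
            apply Finset.prod_le_prod
            · intro p _
              positivity
            · intro p _
              simp only [P, Sum.elim_inl]
              have h2 : ‖x p.1 + (ε : ℂ) * w p.1 * ω ^ (p.2 : ℕ)‖ ≤ ‖x p.1‖ + ε := by
                refine (norm_add_le _ _).trans ?_
                rw [norm_mul, norm_mul, norm_pow, hω1, one_pow, hw, mul_one, mul_one,
                  Complex.norm_real, Real.norm_of_nonneg hε]
              apply max_le
              · have := le_max_left 1 ‖x p.1‖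
                linarith
              · have := le_max_right 1 ‖x p.1‖
                linarith
        _ = (∏ i, (max 1 ‖x i‖ + ε)) ^ k := by
            rw [Fintype.prod_prod_type]
            simp only [Finset.prod_const, Finset.card_univ, Fintype.card_fin, Finset.prod_pow]
    have h3 : ∏ j, max 1 ‖P x y k ω ε w (Sum.inr j)‖ = ∏ j, max 1 ‖y j‖ := by
      apply Finset.prod_congr rfl
      intro j _
      simp [P]
    rw [h3]
    apply mul_le_mul_of_nonneg_right h1
    apply Finset.prod_nonneg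
    intro j _
    positivity
  calc dprod x ^ (k ^ 2) * (∏ i, ∏ j, ‖x i - y j‖) ^ (2 * k) * dprod y *
        ε ^ (Fintype.card ι * (k * (k - 1)))
      ≤ ‖F x y k ω ε w‖ * ∏ p : ι × Fin k, ∏ b ∈ Finset.univ.erase p.2,
        ‖(ε : ℂ) * w p.1 * (ω ^ (p.2 : ℕ) - ω ^ (b : ℕ))‖ := by
        apply mul_le_mul hF hI (by positivity) (norm_nonneg _)
    _ = dprod (P x y k ω ε w) := hD.symm
    _ ≤ _ := hV
    _ ≤ _ := by
        apply mul_le_mul_of_nonneg_left _ (by positivity)
        apply pow_le_pow_left₀ _ hmax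
        apply Finset.prod_nonneg
        intro s _
        positivity

end Cluster

end Pool.Agent.H658R2.LehC
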